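import Pool.Agent.Lib.MP_706ff3_lc.B.Final

/-!
Q2: for every standard `k`, `RCA0 + RT22 + PRT k` is conservative over `RCA0 + RT22` for universal
second order statements with arithmetical matrix.
-/

namespace Pool.Agent.Results.MP_706ff3_lc.ConservativeRT

open Pool.Agent.Lib.MP_706ff3_lc

/-- Sanity check: the calculus is sound and complete for two-sorted structures. -/
theorem adequacy (T : Set Fm) (θ : Fm) :
    Prf T [] θ ↔ ∀ A : Str, (∀ ψ ∈ T, A.Valid ψ) → A.Valid θ :=
  prf_iff T θ

theorem result : ∀ (k : ℕ) (θ : Fm), Pi11 θ →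
    Prf (RCA0 ∪ {RT22} ∪ {PRT k}) [] θ → Prf (RCA0 ∪ {RT22}) [] θ :=
  B.conservation

end Pool.Agent.Results.MP_706ff3_lc.ConservativeRT
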